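import Pool.Agent.H46.YBE.Core

set_option autoImplicit false

namespace Pool.Agent.Results.MP_a65784_al.Q1Fails

open Pool.Agent.H46.YBE

/-- **Q1 is false as posed, for every prime.** For every prime `p` there is an indecomposable
irretractable solution on `ZMod p × ZMod p`, with the fibres as blocks, for which
`β_{y,z} ≠ β_{y',z}` for some `y, y', z`. -/
theorem result (p : ℕ) [Fact p.Prime] :
    ∃ (σ : ZMod p × ZMod p → Equiv.Perm (ZMod p × ZMod p))
      (β : ZMod p → ZMod p → Equiv.Perm (ZMod p))
      (α : ZMod p → ZMod p → ZMod p → Equiv.Perm (ZMod p)),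
      IsSolution σ ∧ Indecomposable σ ∧ Irretractable σ ∧ FibresAreBlocks σ ∧
      IsBlockData σ β α ∧ ∃ y y' z, β y z ≠ β y' z := by
  classical
  let τ : ZMod p → Equiv.Perm (ZMod p) := fun y => if y = 0 then Equiv.addRight 1 else 1
  refine ⟨transport (label 1 τ) co, _, _, isSolution_of_cycle _ (isSolution_transport_aux _ _ co_cycle),
    indecomposable_transport _ _ co_indecomposable, irretractable_transport _ _ co_irretractable,
    fibresAreBlocks _ _ _ (co_block 1 τ), co_block 1 τ, 0, 1, 0, ?_⟩
  intro h
  have h1 := congrArg (fun f : Equiv.Perm (ZMod p) => f 0) h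
  simp [τ] at h1

end Pool.Agent.Results.MP_a65784_al.Q1Fails
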