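import Pool.Agent.H46.YBE.Core

set_option autoImplicit false

namespace Pool.Agent.Results.MP_a65784_al.Q2Fails

open Pool.Agent.H46.YBE

/-- **Q2 is false for every odd prime, for every labelling of the points.**
For every odd prime `p` there is an indecomposable irretractable solution on
`ZMod p × ZMod p` whose fibres are blocks such that, after any relabelling
`(y, z) ↦ (π(y), τ_y(z))` of the points, the equivalence
`α_{y,z,y'} = α_{y,z',y''} ↔ β_{y,z}(y') = β_{y,z'}(y'')` fails for some arguments. -/
theorem result (p : ℕ) [Fact p.Prime] (hp : p ≠ 2) :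
    ∃ σ : ZMod p × ZMod p → Equiv.Perm (ZMod p × ZMod p),
      ∀ (π : Equiv.Perm (ZMod p)) (τ : ZMod p → Equiv.Perm (ZMod p)),
        IsSolution (transport (label π τ) σ) ∧ Indecomposable (transport (label π τ) σ) ∧
        Irretractable (transport (label π τ) σ) ∧ FibresAreBlocks (transport (label π τ) σ) ∧
        ∃ (β : ZMod p → ZMod p → Equiv.Perm (ZMod p))
          (α : ZMod p → ZMod p → ZMod p → Equiv.Perm (ZMod p)),
          IsBlockData (transport (label π τ) σ) β α ∧
          ∃ y y' y'' z z', ¬ (α y z y' = α y z' y'' ↔ β y z y' = β y z' y'') := by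
  refine ⟨co, fun π τ => ⟨isSolution_of_cycle _ (isSolution_transport_aux _ _ co_cycle),
    indecomposable_transport _ _ co_indecomposable, irretractable_transport _ _ co_irretractable,
    fibresAreBlocks _ _ _ (co_block π τ), _, _, co_block π τ,
    co_not_Q2 hp π τ _ _ (co_block π τ)⟩⟩

end Pool.Agent.Results.MP_a65784_al.Q2Fails
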